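import Pool.Agent.Lib_helper4.SadG.Final

/-!
Under GCH: let `ν = ℵ_β` be regular and `λ = ℵ_(β+ν)` (the least cardinal above `ν` of cofinality
`ν`). For every cardinal `κ` with `ν < κ ≤ λ⁺` there is a family of `λ⁺` sets of cardinality `κ`,
with pairwise intersections smaller than `ν`, without `ν⁺`-transversal, if and only if there are
ladders of type `ν⁺` on a stationary subset of `λ⁺` with pairwise intersections smaller than `ν`.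
This does not depend on `κ`. Q1 is the case `ν = ℵ_0`, `κ = ℵ_1`; Q2 is the case `ν = ℵ_1`,
`κ = ℵ_(ω+1)`.
-/

open Cardinal Order Set Ordinal

namespace Pool.Agent.Results.MP_5ce694_lc.LaddersAllSizes

/-- The generalised continuum hypothesis. -/
def GCH : Prop := ∀ c : Cardinal.{0}, ℵ₀ ≤ c → (2 : Cardinal.{0}) ^ c = succ c

/-- A family of `μ` sets of cardinality `κ` with `δ(𝒜) = ν`: the least `δ` such that any two distinct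
members have fewer than `δ` common elements is `ν`. -/
def IsFamily (ν κ μ : Cardinal.{0}) {α : Type} (𝒜 : Set (Set α)) : Prop :=
  #𝒜 = μ ∧ (∀ A ∈ 𝒜, #A = κ) ∧
    IsLeast {δ : Cardinal.{0} | ∀ A ∈ 𝒜, ∀ B ∈ 𝒜, A ≠ B → #(A ∩ B : Set α) < δ} ν

/-- `𝒜` has a `σ`-transversal. -/
def HasTransversal (σ : Cardinal.{0}) {α : Type} (𝒜 : Set (Set α)) : Prop :=
  ∃ T : Set α, ∀ A ∈ 𝒜, 0 < #(T ∩ A : Set α) ∧ #(T ∩ A : Set α) < σ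

/-- The members of `𝒜` become pairwise disjoint after the removal of at most `ν` elements from
each. -/
def EssentiallyDisjoint (ν : Cardinal.{0}) {α : Type} (𝒜 : Set (Set α)) : Prop :=
  ∃ F : Set α → Set α, (∀ A ∈ 𝒜, #(F A) ≤ ν) ∧
    ∀ A ∈ 𝒜, ∀ B ∈ 𝒜, A ≠ B → Disjoint (A \ F A) (B \ F B)

/-- The chromatic number of `𝒜` is larger than `ν`: every colouring with `ν` colours is constant on
a member of `𝒜`. -/
def LargeChromatic (ν : Cardinal.{0}) {α : Type} (𝒜 : Set (Set α)) : Prop :=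
  ∀ f : α → ν.ord.ToType, ∃ A ∈ 𝒜, ∃ c, ∀ x ∈ A, f x = c

/-- With `ν = ℵ_β` and `λ = ℵ_(β+ν)`: the ordinal `λ⁺`, as a well ordered type. -/
abbrev Om (β : Ordinal.{0}) : Type := (ℵ_ (β + (ℵ_ β).ord + 1)).ord.ToType

/-- There are sets `L γ ⊆ γ`, `γ ∈ S`, of cardinality `ν⁺`, such that `L γ` meets every `δ < γ` in at
most `ν` points, with pairwise intersections smaller than `ν`. -/
def HasLadders {β : Ordinal.{0}} (S : Set (Om β)) : Prop :=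
  ∃ L : Om β → Set (Om β),
    (∀ γ ∈ S, #(L γ) = ℵ_ (β + 1) ∧ L γ ⊆ Iio γ ∧
      ∀ δ < γ, #(L γ ∩ Iio δ : Set (Om β)) ≤ ℵ_ β) ∧
    ∀ γ ∈ S, ∀ γ' ∈ S, γ ≠ γ' → #(L γ ∩ L γ' : Set (Om β)) < ℵ_ β

/-- `γ` is approachable with respect to the sequence `a`: there is an unbounded `H ⊆ γ` that meets
every `x < γ` in at most `ν` points, and all the sets `H ∩ x`, `x < γ`, occur among the `a ξ`,
`ξ < γ`. -/
def Approachable {β : Ordinal.{0}} (a : Om β → Set (Om β)) (γ : Om β) : Prop :=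
  ∃ H ⊆ Iio γ, (∀ x < γ, ∃ y ∈ H, x ≤ y) ∧ (∀ x < γ, #(H ∩ Iio x : Set (Om β)) ≤ ℵ_ β) ∧
    ∀ x < γ, ∃ ξ < γ, a ξ = H ∩ Iio x

/-- `W` writes every `b < λ⁺` as a union of `ν` sets of size less than `λ`. -/
def IsDecomposition {β : Ordinal.{0}} (W : Om β → (ℵ_ β).ord.ToType → Set (Om β)) : Prop :=
  ∀ b, (⋃ i, W b i) = Iio b ∧ ∀ i, #(W b i) < ℵ_ (β + (ℵ_ β).ord)

/-- The points `δ` that have a subset `L` of cardinality `ν⁺` meeting every `W b i`, `b < δ`, in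
fewer than `ν` points. -/
def CanonicalSet {β : Ordinal.{0}} (W : Om β → (ℵ_ β).ord.ToType → Set (Om β)) : Set (Om β) :=
  {δ | ∃ L ⊆ Iio δ, #L = ℵ_ (β + 1) ∧ ∀ b < δ, ∀ i, #(L ∩ W b i : Set (Om β)) < ℵ_ β}

/-- **Main theorem.** -/
theorem result (gch : GCH) (β : Ordinal.{0}) (hreg : (ℵ_ β).IsRegular) (κ : Cardinal.{0})
    (hκ1 : ℵ_ β < κ) (hκ2 : κ ≤ ℵ_ (β + (ℵ_ β).ord + 1)) : List.TFAE [
    ∃ (α : Type) (𝒜 : Set (Set α)),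
      IsFamily (ℵ_ β) κ (ℵ_ (β + (ℵ_ β).ord + 1)) 𝒜 ∧ ¬ HasTransversal (ℵ_ (β + 1)) 𝒜,
    ∃ (α : Type) (𝒜 : Set (Set α)),
      IsFamily (ℵ_ β) (ℵ_ (β + 1)) (ℵ_ (β + (ℵ_ β).ord + 1)) 𝒜 ∧
        ¬ EssentiallyDisjoint (ℵ_ β) 𝒜,
    ∃ (α : Type) (𝒜 : Set (Set α)),
      IsFamily (ℵ_ β) (ℵ_ (β + 1)) (ℵ_ (β + (ℵ_ β).ord + 1)) 𝒜 ∧ LargeChromatic (ℵ_ β) 𝒜,
    ∃ S : Set (Om β), IsStationary S ∧ HasLadders S,
    ∀ a : Om β → Set (Om β),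
      ∃ S : Set (Om β), IsStationary S ∧ (∀ γ ∈ S, ¬ Approachable a γ) ∧ HasLadders S,
    ∃ W : Om β → (ℵ_ β).ord.ToType → Set (Om β), IsDecomposition W ∧ IsStationary (CanonicalSet W),
    ∀ W : Om β → (ℵ_ β).ord.ToType → Set (Om β),
      IsDecomposition W → IsStationary (CanonicalSet W)] := by
  have h0 : ℵ₀ ≤ ℵ_ β := aleph0_le_aleph β
  have hμ : ℵ_ β ≤ ℵ_ (β + (ℵ_ β).ord + 1) := by
    rw [aleph_le_aleph, add_assoc]; exact le_self_add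
  obtain ⟨a, rfl, ha0, ha⟩ := SadG.exists_index hκ1 hκ2
  have hL : (∃ S : Set (Om β), IsStationary S ∧ HasLadders S) ↔ SadG.LSn β := by
    constructor
    · rintro ⟨S, hS, L, h1, h2⟩; exact ⟨S, L, hS, h1, h2⟩
    · rintro ⟨S, L, hS, h1, h2⟩; exact ⟨S, hS, L, h1, h2⟩
  tfae_have 1 → 4 := by
    rintro ⟨α, 𝒜, h𝒜, hT⟩
    rw [hL]
    refine SadG.ladder_of_no_transversal gch hreg ha0 ha h𝒜.2.2.1 h𝒜.2.1 h𝒜.1.le ?_
    rintro ⟨T, h⟩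
    exact hT ⟨T, fun A hA => ⟨(h A hA).1, SadG.le_of_lt_aleph_succ.2 (h A hA).2⟩⟩
  tfae_have 4 → 1 := by
    intro h
    obtain ⟨𝒜, h1, h2, h3, h4⟩ := SadG.family_of_ladder gch ha0 ha (hL.1 h)
    obtain ⟨G, ℬ, j, hj, h5, h6, h7, h8⟩ := Sad.exact_ext 𝒜 h0 SadG.aleph_le_add' hμ h1 h2 h3
    refine ⟨G, ℬ, ⟨h5, h6, h7⟩, ?_⟩
    rintro ⟨T, hT⟩
    refine h4 ⟨j ⁻¹' T, fun A hA => ?_⟩
    have h9 : #(j ⁻¹' T ∩ A : Set _) = #(T ∩ j '' A : Set G) := by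
      rw [← mk_image_eq hj]
      congr 2
      ext x
      constructor
      · rintro ⟨y, ⟨hy, hyA⟩, rfl⟩; exact ⟨hy, y, hyA, rfl⟩
      · rintro ⟨hx, y, hyA, rfl⟩; exact ⟨y, ⟨hx, hyA⟩, rfl⟩
    rw [h9]
    exact hT _ (h8 A hA)
  tfae_have 2 → 4 := by
    rintro ⟨α, 𝒜, h𝒜, hE⟩
    rw [hL]
    have h1ν : 1 ≤ (ℵ_ β).ord :=
      Order.one_le_iff_pos.2 (SadG.isSuccLimit_nu β).bot_lt
    have hbase : SadG.Stmt (α := α) β (ℵ_ (β + 1)) (SadG.EDn (ℵ_ β)) 1 := by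
      intro ℬ hAD _ hc
      refine SadG.EDn.base h0 hAD ?_
      rwa [succ_aleph]
    exact SadG.ladder_of_not gch SadG.lt_aleph_succ (SadG.aleph_le_add h1ν) (SadG.glue_EDn h0)
      (SadG.induct gch hreg zero_lt_one (SadG.glue_EDn h0) hbase _ h1ν le_rfl)
      h𝒜.2.2.1 h𝒜.2.1 h𝒜.1.le hE
  tfae_have 4 → 3 := by
    intro h
    obtain ⟨𝒜, h1, h2, h3, h4⟩ := SadG.chromatic_of_ladderG gch (hL.1 h)
    obtain ⟨G, ℬ, j, hj, h5, h6, h7, h8⟩ := Sad.exact_ext 𝒜 h0 SadG.aleph_le_add' hμ h1 h2 h3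
    refine ⟨G, ℬ, ⟨h5, h6, h7⟩, fun f => ?_⟩
    obtain ⟨A, hA, c, hc⟩ := h4 (f ∘ j)
    refine ⟨j '' A, h8 A hA, c, ?_⟩
    rintro _ ⟨x, hx, rfl⟩
    exact hc x hx
  tfae_have 3 → 2 := by
    rintro ⟨α, 𝒜, h𝒜, hf⟩
    exact ⟨α, 𝒜, h𝒜, SadG.not_EDn_of_chromatic h𝒜.2.1 hf⟩
  tfae_have 4 → 5 := by
    intro h s
    obtain ⟨S, L, hS, h1, h2⟩ := SadG.LSoff_of_ladder gch (hL.1 h) s
    exact ⟨S, hS, fun γ hγ => (h1 γ hγ).1, L, fun γ hγ => (h1 γ hγ).2, h2⟩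
  tfae_have 5 → 4 := by
    intro h
    obtain ⟨S, hS, -, h2⟩ := h (fun _ => ∅)
    exact ⟨S, hS, h2⟩
  tfae_have 4 → 7 := fun h W hW => SadG.SptsG_of_ladder gch (hL.1 h) hW
  tfae_have 7 → 6 := by
    intro h
    obtain ⟨W, hW⟩ := SadG.exists_matrixG β
    exact ⟨W, hW, h W hW⟩
  tfae_have 6 → 4 := by
    rintro ⟨W, hW, hS⟩
    exact hL.2 (SadG.ladder_of_SptsG hW hS)
  tfae_finish

/-- Q1 as posed. -/
theorem q1 (gch : GCH) :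
    (∃ (α : Type) (𝒜 : Set (Set α)), IsFamily ℵ₀ (ℵ_ 1) (ℵ_ (ω + 1)) 𝒜 ∧
      ¬ HasTransversal (ℵ_ 1) 𝒜) ↔ ∃ S : Set (Om 0), IsStationary S ∧ HasLadders S := by
  have hreg : (ℵ_ (0 : Ordinal.{0})).IsRegular := by
    rw [aleph_zero]; exact isRegular_aleph0
  have h1 : ℵ_ (0 : Ordinal.{0}) < ℵ_ 1 := by rw [aleph_lt_aleph]; exact zero_lt_one
  have h2 : ℵ_ (1 : Ordinal.{0}) ≤ ℵ_ (0 + (ℵ_ 0).ord + 1) := by
    rw [aleph_le_aleph]; simp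
  have h := (result gch 0 hreg (ℵ_ 1) h1 h2).out 0 3
  have h3 : (ℵ_ (0 : Ordinal.{0})).ord = ω := by rw [aleph_zero, ord_aleph0]
  have h4 : (0 : Ordinal.{0}) + (ℵ_ 0).ord + 1 = ω + 1 := by rw [h3, zero_add]
  have h5 : (0 : Ordinal.{0}) + 1 = 1 := zero_add 1
  rw [← aleph_zero, ← h]
  simp only [h4, h5]

/-- Q2 as posed. -/
theorem q2 (gch : GCH) :
    (∃ (α : Type) (𝒜 : Set (Set α)), IsFamily (ℵ_ 1) (ℵ_ (ω + 1)) (ℵ_ (ω_ 1 + 1)) 𝒜 ∧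
      ¬ HasTransversal (ℵ_ 2) 𝒜) ↔ ∃ S : Set (Om 1), IsStationary S ∧ HasLadders S := by
  have hreg : (ℵ_ (1 : Ordinal.{0})).IsRegular := by
    have := isRegular_aleph_add_one (0 : Ordinal.{0})
    rwa [zero_add] at this
  have h1 : ℵ_ (1 : Ordinal.{0}) < ℵ_ (ω + 1) := by
    rw [aleph_lt_aleph]; exact one_lt_omega0.trans (by simp)
  have h3 : (ℵ_ (1 : Ordinal.{0})).ord = ω_ 1 := ord_aleph 1
  have h4 : (1 : Ordinal.{0}) + (ℵ_ 1).ord + 1 = ω_ 1 + 1 := by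
    rw [h3]
    congr 1
    exact one_add_of_omega0_le (omega0_le_omega 1)
  have h2 : ℵ_ (ω + 1 : Ordinal.{0}) ≤ ℵ_ (1 + (ℵ_ 1).ord + 1) := by
    rw [h4, aleph_le_aleph]
    exact add_le_add_left (omega0_le_omega 1) 1
  have h := (result gch 1 hreg (ℵ_ (ω + 1)) h1 h2).out 0 3
  have h5 : (1 : Ordinal.{0}) + 1 = 2 := one_add_one_eq_two
  rw [← h]
  simp only [h4, h5]

end Pool.Agent.Results.MP_5ce694_lc.LaddersAllSizes
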